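import Pool.Agent.helper47.MSW.SpecA
import Pool.Agent.helper47.MSW.SpecC
import Pool.Agent.helper71.DSW.SpecB
import Pool.Agent.helper23.DSW.LNK

set_option autoImplicit false

namespace Pool.Agent.MSW

open Equiv Finset Function MeasureTheory Pool.Agent.helper48.PP
open Pool.Agent.DSW (Pr Has GP wt)
open scoped ENNReal Classical

lemma GAP_box (w : Pt) : box 0 w = Finset.range w.1 ×ˢ Finset.range w.2 := by
  unfold box
  rw [Finset.range_eq_Ico, Finset.range_eq_Ico]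
  rfl

lemma GAP_dep1 {k : ℕ} (τ : Perm (Fin k)) (a z : Pt) (ω ω' : Om)
    (H : ∀ c ∈ box a z, ω c = ω' c) (h : HP τ ω a z) : HP τ ω' a z := by
  obtain ⟨h0, x, y, hx, hy, hc⟩ := h
  refine ⟨h0, x, y, hx, hy, fun j => ⟨?_, (hc j).2⟩⟩
  rw [← H]
  · exact (hc j).1
  · rw [mem_box]
    exact ⟨⟨(hc j).2.1.1, (hc (τ j)).2.2.1⟩, ⟨(hc j).2.1.2, (hc (τ j)).2.2.2⟩⟩

lemma GAP_dep {k : ℕ} (τ : Perm (Fin k)) (a z : Pt) : Dep (box a z) {ω | HP τ ω a z} := by
  intro ω ω' H
  exact ⟨GAP_dep1 τ a z ω ω' H, GAP_dep1 τ a z ω' ω fun c hc => (H c hc).symm⟩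

lemma GAP_has {k : ℕ} (τ : Perm (Fin k)) (w : Pt) (S : Finset Pt) (hS : S ⊆ box 0 w) :
    HP τ (ind S) 0 w ↔ Has τ S := by
  constructor
  · rintro ⟨_, x, y, hx, hy, hc⟩
    refine ⟨x, y, hx, hy, fun j => ?_⟩
    have := (hc j).1
    unfold ind at this
    exact of_decide_eq_true this
  · rintro ⟨x, y, hx, hy, hc⟩
    refine ⟨⟨Nat.zero_le _, Nat.zero_le _⟩, x, y, hx, hy, fun j => ⟨?_, ?_, ?_⟩⟩
    · unfold ind
      exact decide_eq_true (hc j)
    · have := mem_box.mp (hS (hc j))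
      exact ⟨Nat.zero_le _, this.2.1⟩
    · have := mem_box.mp (hS (hc (τ.symm j)))
      rw [Equiv.apply_symm_apply] at this
      exact ⟨Nat.zero_le _, this.2.2⟩

lemma GAP_tr (w : Pt) (S : Finset Pt) (hS : S ⊆ box 0 w) : tr (ind S) 0 w = S := by
  ext c
  unfold tr ind
  rw [Finset.mem_filter]
  constructor
  · rintro ⟨_, h⟩; exact of_decide_eq_true h
  · intro h; exact ⟨hS h, decide_eq_true h⟩

lemma GAP_Pr_congr {γ : Type} (C : Finset γ) (p : ℝ) (A B : Finset γ → Prop)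
    (h : ∀ S, S ⊆ C → (A S ↔ B S)) : Pr C p A = Pr C p B := by
  unfold Pr
  apply Finset.sum_congr _ fun _ _ => rfl
  apply Finset.filter_congr
  intro S hS
  exact h S (Finset.mem_powerset.mp hS)

lemma GAP_Pr_nonneg {γ : Type} (C : Finset γ) (p : ℝ) (A : Finset γ → Prop) (h0 : 0 ≤ p) (h1 : p ≤ 1) :
    0 ≤ Pr C p A := by
  unfold Pr
  apply Finset.sum_nonneg
  intro S _
  exact mul_nonneg (pow_nonneg h0 _) (pow_nonneg (by linarith) _)

lemma GAP_count {k l : ℕ} (σ : Perm (Fin k)) (τ : Perm (Fin l)) (n : ℕ)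
    (h : avCount n σ < avCount n τ) :
    (Finset.univ.filter fun w : Perm (Fin n) => Contains w τ).card + 1 ≤
      (Finset.univ.filter fun w : Perm (Fin n) => Contains w σ).card := by
  have h1 : ∀ (m : ℕ) (p : Perm (Fin m)),
      (Finset.univ.filter fun w : Perm (Fin n) => Contains w p).card + avCount n p =
        (Finset.univ : Finset (Perm (Fin n))).card := by
    intro m p
    unfold avCount
    exact Finset.card_filter_add_card_filter_not _
  have h2 := h1 k σ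
  have h3 := h1 l τ
  omega

lemma GAP_choose (H n a : ℕ) (h : 2 * n ≤ H) (ha : H ≤ a) :
    ((H : ℝ) / 2) ^ n / (n.factorial : ℝ) ≤ ((a.choose n : ℕ) : ℝ) := by
  have h1 : ((H + 1 - n : ℕ)) ^ n ≤ H.descFactorial n := Nat.pow_sub_le_descFactorial H n
  have h2 : H.descFactorial n = n.factorial * H.choose n := Nat.descFactorial_eq_factorial_mul_choose H n
  have h3 : H.choose n ≤ a.choose n := Nat.choose_le_choose n ha
  have h4 : (H : ℝ) / 2 ≤ ((H + 1 - n : ℕ) : ℝ) := by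
    rw [Nat.cast_sub (by omega)]
    push_cast
    have : (2 : ℝ) * n ≤ H := by exact_mod_cast h
    linarith
  have hf : (0 : ℝ) < (n.factorial : ℝ) := by exact_mod_cast Nat.factorial_pos n
  rw [div_le_iff₀ hf]
  calc ((H : ℝ) / 2) ^ n ≤ ((H + 1 - n : ℕ) : ℝ) ^ n := pow_le_pow_left₀ (by positivity) h4 n
    _ ≤ ((H.descFactorial n : ℕ) : ℝ) := by exact_mod_cast h1
    _ = (n.factorial : ℝ) * (H.choose n : ℝ) := by rw [h2]; push_cast; ring
    _ ≤ (n.factorial : ℝ) * (a.choose n : ℝ) := by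
        apply mul_le_mul_of_nonneg_left _ hf.le
        exact_mod_cast h3
    _ = (a.choose n : ℝ) * (n.factorial : ℝ) := mul_comm _ _

lemma GAP_real (hGPC : Pool.Agent.DSW.GPC_stmt) {k l : ℕ} (σ : Perm (Fin k)) (τ : Perm (Fin l)) (n : ℕ)
    (hle : ∀ m, avCount m σ ≤ avCount m τ) (hlt : avCount n σ < avCount n τ)
    (M M' : ℕ) (p : ℝ) (h0 : 0 ≤ p) (h1 : p ≤ 1) (hn : n ≤ M * M') :
    Pr (Finset.range M ×ˢ Finset.range M') p (Has τ) +
      p ^ n * (1 - p) ^ (M * M' - n) * ((M.choose n : ℝ) * (M'.choose n : ℝ)) ≤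
    Pr (Finset.range M ×ˢ Finset.range M') p (Has σ) +
      Pr (Finset.range M ×ˢ Finset.range M') p (fun S => ¬ GP S) := by
  have hq : 0 ≤ 1 - p := by linarith
  have step1 : Pr (Finset.range M ×ˢ Finset.range M') p (Has τ) ≤
      Pr (Finset.range M ×ˢ Finset.range M') p (fun S => GP S ∧ Has τ S) +
      Pr (Finset.range M ×ˢ Finset.range M') p (fun S => ¬ GP S) := by
    unfold Pr
    rw [Finset.sum_filter, Finset.sum_filter, Finset.sum_filter, ← Finset.sum_add_distrib]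
    apply Finset.sum_le_sum
    intro S _
    have hW : 0 ≤ p ^ S.card * (1 - p) ^ ((Finset.range M ×ˢ Finset.range M').card - S.card) :=
      mul_nonneg (pow_nonneg h0 _) (pow_nonneg hq _)
    by_cases hg : GP S
    · by_cases ht : Has τ S
      · rw [if_pos ht, if_pos ⟨hg, ht⟩, if_neg (not_not.2 hg), add_zero]
      · rw [if_neg ht, if_neg (fun h => ht h.2), if_neg (not_not.2 hg), add_zero]
    · rw [if_neg (fun h : GP S ∧ Has τ S => hg h.1), if_pos hg, zero_add]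
      split_ifs
      · exact le_refl _
      · exact hW
  have step2 : Pr (Finset.range M ×ˢ Finset.range M') p (fun S => GP S ∧ Has τ S) +
      p ^ n * (1 - p) ^ (M * M' - n) * ((M.choose n : ℝ) * (M'.choose n : ℝ)) ≤
      Pr (Finset.range M ×ˢ Finset.range M') p (fun S => GP S ∧ Has σ S) := by
    rw [Pool.Agent.DSW.LNK_fib, Pool.Agent.DSW.LNK_fib]
    have hmem : n ∈ Finset.range (M * M' + 1) := Finset.mem_range.mpr (by omega)
    rw [← Finset.add_sum_erase _ _ hmem, ← Finset.add_sum_erase _ (fun m => p ^ m * (1 - p) ^ (M * M' - m) *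
        (((Finset.range M ×ˢ Finset.range M').powerset.filter
          fun S => GP S ∧ S.card = m ∧ Has σ S).card : ℝ)) hmem]
    have e1 : ∑ m ∈ (Finset.range (M * M' + 1)).erase n, p ^ m * (1 - p) ^ (M * M' - m) *
        (((Finset.range M ×ˢ Finset.range M').powerset.filter
          fun S => GP S ∧ S.card = m ∧ Has τ S).card : ℝ) ≤
        ∑ m ∈ (Finset.range (M * M' + 1)).erase n, p ^ m * (1 - p) ^ (M * M' - m) *
        (((Finset.range M ×ˢ Finset.range M').powerset.filter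
          fun S => GP S ∧ S.card = m ∧ Has σ S).card : ℝ) := by
      apply Finset.sum_le_sum
      intro m _
      apply mul_le_mul_of_nonneg_left _ (mul_nonneg (pow_nonneg h0 _) (pow_nonneg hq _))
      rw [hGPC, hGPC]
      exact_mod_cast Nat.mul_le_mul_left _ (Pool.Agent.DSW.LNK_count σ τ m (hle m))
    have e2 : p ^ n * (1 - p) ^ (M * M' - n) *
        (((Finset.range M ×ˢ Finset.range M').powerset.filter
          fun S => GP S ∧ S.card = n ∧ Has τ S).card : ℝ) +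
        p ^ n * (1 - p) ^ (M * M' - n) * ((M.choose n : ℝ) * (M'.choose n : ℝ)) ≤
        p ^ n * (1 - p) ^ (M * M' - n) *
        (((Finset.range M ×ˢ Finset.range M').powerset.filter
          fun S => GP S ∧ S.card = n ∧ Has σ S).card : ℝ) := by
      rw [← mul_add]
      apply mul_le_mul_of_nonneg_left _ (mul_nonneg (pow_nonneg h0 _) (pow_nonneg hq _))
      rw [hGPC, hGPC]
      have h3 := GAP_count σ τ n hlt
      have h4 := Nat.mul_le_mul_left (M.choose n * M'.choose n) h3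
      rw [mul_add, mul_one] at h4
      exact_mod_cast h4
    linarith
  have step3 : Pr (Finset.range M ×ˢ Finset.range M') p (fun S => GP S ∧ Has σ S) ≤
      Pr (Finset.range M ×ˢ Finset.range M') p (Has σ) := by
    rw [Pool.Agent.DSW.LNK_Pr, Pool.Agent.DSW.LNK_Pr]
    apply Finset.sum_le_sum_of_subset_of_nonneg
    · intro S hS
      rw [Finset.mem_filter] at hS ⊢
      exact ⟨hS.1, hS.2.2⟩
    · intro S _ _
      exact mul_nonneg (pow_nonneg h0 _) (pow_nonneg hq _)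
  linarith

theorem GAP (hMUM : MUM_stmt) (hFLT : FLT_stmt) (hSTR : STR_stmt)
    (hGPC : Pool.Agent.DSW.GPC_stmt) : GAP_stmt := by
  intro s
  obtain ⟨hle, n, hlt⟩ := hSTR s
  have hf : (0 : ℝ) < (n.factorial : ℝ) := by exact_mod_cast Nat.factorial_pos n
  have hf1 : (1 : ℝ) ≤ (n.factorial : ℝ) := by exact_mod_cast Nat.factorial_pos n
  refine ⟨n, 1 / (2 * 4 ^ n * (n.factorial : ℝ) ^ 2), by positivity, ?_, ?_⟩
  · rw [div_le_one (by positivity)]
    have h1 : (1 : ℝ) ≤ 4 ^ n := one_le_pow₀ (by norm_num)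
    have h2 : (1 : ℝ) ≤ (n.factorial : ℝ) ^ 2 := one_le_pow₀ hf1
    nlinarith
  intro θ H w hθ hθ8 hH hnH hJ
  have hHR : (1 : ℝ) ≤ (H : ℝ) := by exact_mod_cast hH
  have hH0 : (0 : ℝ) < (H : ℝ) := by linarith
  set p := den θ H with hp
  have hpd : p = θ / (H : ℝ) ^ 2 := rfl
  have hp0 : 0 < p := by rw [hpd]; positivity
  have hp1 : p ≤ 1 := by
    rw [hpd, div_le_one (by positivity)]
    nlinarith
  obtain ⟨⟨hw1, hw1'⟩, hw2, hw2'⟩ := hJ
  have hHL : ∀ ε, Pm p {ω | HL (Blk s ε) ω 0 w} =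
      ENNReal.ofReal (Pr (Finset.range w.1 ×ˢ Finset.range w.2) p (Has (flat (Blk s ε)).2)) := by
    intro ε
    have e : {ω : Om | HL (Blk s ε) ω 0 w} = {ω | HP (flat (Blk s ε)).2 ω 0 w} := by
      ext ω
      exact hFLT.1 (Blk s ε) ω 0 w
    rw [e, (hMUM p (box 0 w) _ hp0.le hp1 (GAP_dep _ 0 w)).2, GAP_box]
    congr 1
    apply GAP_Pr_congr
    intro S hS
    rw [← GAP_box] at hS
    exact GAP_has _ w S hS
  have hGP : Pm p {ω | ¬ GP (tr ω 0 w)} =
      ENNReal.ofReal (Pr (Finset.range w.1 ×ˢ Finset.range w.2) p (fun S => ¬ GP S)) := by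
    rw [(hMUM p (box 0 w) _ hp0.le hp1 (Dep.tr 0 w (fun S => ¬ GP S))).2, GAP_box]
    congr 1
    apply GAP_Pr_congr
    intro S hS
    rw [← GAP_box] at hS
    show ¬ GP (tr (ind S) 0 w) ↔ ¬ GP S
    rw [GAP_tr w S hS]
  have hnw : n ≤ w.1 * w.2 := by
    have h1 : n ≤ w.1 := by omega
    have h2 : 1 ≤ w.2 := by omega
    nlinarith
  have key := GAP_real hGPC (flat (Blk s true)).2 (flat (Blk s false)).2 n hle hlt w.1 w.2 p hp0.le hp1 hnw
  have hq0 : 0 ≤ 1 - p := by linarith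
  have hgain : 1 / (2 * 4 ^ n * (n.factorial : ℝ) ^ 2) * θ ^ n ≤
      p ^ n * (1 - p) ^ (w.1 * w.2 - n) * ((w.1.choose n : ℝ) * (w.2.choose n : ℝ)) := by
    have e1 : (1 : ℝ) / 2 ≤ (1 - p) ^ (w.1 * w.2 - n) := by
      have h1 : (1 - p) ^ (w.1 * w.2) ≤ (1 - p) ^ (w.1 * w.2 - n) :=
        pow_le_pow_of_le_one hq0 (by linarith) (by omega)
      have h2 : 1 - ((w.1 * w.2 : ℕ) : ℝ) * p ≤ (1 - p) ^ (w.1 * w.2) := by
        have := one_add_mul_le_pow (a := -p) (by linarith) (w.1 * w.2)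
        have e : (1 : ℝ) + -p = 1 - p := by ring
        rw [e] at this
        linarith
      have h3 : ((w.1 * w.2 : ℕ) : ℝ) * p ≤ 1 / 2 := by
        have h4 : ((w.1 * w.2 : ℕ) : ℝ) ≤ 4 * (H : ℝ) ^ 2 := by
          have : w.1 * w.2 ≤ (2 * H) * (2 * H) := Nat.mul_le_mul hw1'.le hw2'.le
          have h5 : ((w.1 * w.2 : ℕ) : ℝ) ≤ ((2 * H * (2 * H) : ℕ) : ℝ) := by exact_mod_cast this
          push_cast at h5 ⊢
          nlinarith
        calc ((w.1 * w.2 : ℕ) : ℝ) * p ≤ 4 * (H : ℝ) ^ 2 * p := mul_le_mul_of_nonneg_right h4 hp0.le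
          _ = 4 * θ := by rw [hpd]; field_simp
          _ ≤ 1 / 2 := by linarith
      linarith
    have e2 := GAP_choose H n w.1 hnH hw1
    have e3 := GAP_choose H n w.2 hnH hw2
    have e4 : ((H : ℝ) / 2) ^ n / (n.factorial : ℝ) * (((H : ℝ) / 2) ^ n / (n.factorial : ℝ)) ≤
        (w.1.choose n : ℝ) * (w.2.choose n : ℝ) :=
      mul_le_mul e2 e3 (by positivity) (by positivity)
    have e5 : p ^ n * (1 / 2) ≤ p ^ n * (1 - p) ^ (w.1 * w.2 - n) :=
      mul_le_mul_of_nonneg_left e1 (by positivity)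
    have e6 := mul_le_mul e5 e4 (by positivity) (by positivity)
    refine le_trans (le_of_eq ?_) e6
    rw [hpd, div_pow, div_pow]
    have h4n : (4 : ℝ) ^ n = 2 ^ n * 2 ^ n := by
      rw [← mul_pow]; norm_num
    have hHn : ((H : ℝ) ^ 2) ^ n = (H : ℝ) ^ n * (H : ℝ) ^ n := by
      rw [← pow_mul, ← pow_add]; congr 1; ring
    rw [h4n, hHn]
    have hHnpos : (0 : ℝ) < (H : ℝ) ^ n := by positivity
    field_simp
  rw [hHL, hHL, hGP, ← ENNReal.ofReal_add (GAP_Pr_nonneg _ _ _ hp0.le hp1) (by positivity),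
    ← ENNReal.ofReal_add (GAP_Pr_nonneg _ _ _ hp0.le hp1) (GAP_Pr_nonneg _ _ _ hp0.le hp1)]
  apply ENNReal.ofReal_le_ofReal
  linarith

end Pool.Agent.MSW
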