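import Pool.Agent.helper47.MSW.SpecA

set_option autoImplicit false

namespace Pool.Agent.MSW

open Equiv Finset Function MeasureTheory Pool.Agent.helper48.PP
open Pool.Agent.DSW (Pr Has GP wt)
open scoped ENNReal Classical

lemma LOB_Pr {γ : Type} (C : Finset γ) (p : ℝ) (A : Finset γ → Prop) [DecidablePred A] :
    Pr C p A = ∑ S ∈ C.powerset.filter A, p ^ S.card * (1 - p) ^ (C.card - S.card) := by
  unfold Pr
  apply Finset.sum_congr _ (fun _ _ => rfl)
  ext S
  simp only [Finset.mem_filter]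

lemma LOB_zero (hMUM : MUM_stmt) (p : ℝ) (F : Finset Pt) (h0 : 0 ≤ p) (h1 : p ≤ 1) :
    MeasurableSet {ω : Om | ∀ c ∈ F, ω c = false} ∧
    Pm p {ω : Om | ∀ c ∈ F, ω c = false} = ENNReal.ofReal ((1 - p) ^ F.card) := by
  have hdep : Dep F {ω : Om | ∀ c ∈ F, ω c = false} := by
    intro ω ω' H
    constructor
    · intro h c hc
      rw [← H c hc]; exact h c hc
    · intro h c hc
      rw [H c hc]; exact h c hc
  obtain ⟨hm, hP⟩ := hMUM p F _ h0 h1 hdep
  refine ⟨hm, ?_⟩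
  rw [hP]
  congr 1
  rw [LOB_Pr]
  refine (Finset.sum_congr (s₂ := ({∅} : Finset (Finset Pt))) ?_ fun _ _ => rfl).trans ?_
  · ext S
    rw [Finset.mem_filter, Finset.mem_powerset, Finset.mem_singleton]
    constructor
    · rintro ⟨hS, h⟩
      rw [Finset.eq_empty_iff_forall_notMem]
      intro c hc
      have h1 : decide (c ∈ S) = false := h c (hS hc)
      exact (of_decide_eq_false h1) hc
    · intro h
      rw [h]
      refine ⟨Finset.empty_subset _, ?_⟩
      intro c _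
      show decide (c ∈ (∅ : Finset Pt)) = false
      simp
  · rw [Finset.sum_singleton]
    simp

lemma LOB_pow (p : ℝ) (h0 : 0 ≤ p) (h1 : p ≤ 1) (n : ℕ) (hn : n * p ≤ 1) :
    (1 - p) ^ n ≤ 1 - n * p / 2 := by
  induction n with
  | zero => simp
  | succ n ih =>
    push_cast at hn ⊢
    have h2 : (n : ℝ) * p ≤ 1 := by linarith
    have h3 := ih h2
    rw [pow_succ]
    have h4 : (1 - p) ^ n * (1 - p) ≤ (1 - n * p / 2) * (1 - p) :=
      mul_le_mul_of_nonneg_right h3 (by linarith)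
    have h5 : (n : ℝ) * p * p ≤ 1 * p := mul_le_mul_of_nonneg_right h2 h0
    nlinarith

lemma LOB_some (hMUM : MUM_stmt) (p : ℝ) (F : Finset Pt) (h0 : 0 ≤ p) (h1 : p ≤ 1)
    (hF : (F.card : ℝ) * p ≤ 1) :
    ENNReal.ofReal ((F.card : ℝ) * p / 2) ≤ Pm p {ω : Om | ∃ c ∈ F, ω c = true} := by
  obtain ⟨hm, hP⟩ := LOB_zero hMUM p F h0 h1
  have e : {ω : Om | ∃ c ∈ F, ω c = true} = {ω : Om | ∀ c ∈ F, ω c = false}ᶜ := by
    ext ω
    simp only [Set.mem_setOf_eq, Set.mem_compl_iff, not_forall, Bool.not_eq_false]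
    constructor
    · rintro ⟨c, hc, h⟩; exact ⟨c, hc, h⟩
    · rintro ⟨c, hc, h⟩; exact ⟨c, hc, h⟩
  rw [e, prob_compl_eq_one_sub hm, hP, ← ENNReal.ofReal_one,
    ← ENNReal.ofReal_sub 1 (pow_nonneg (by linarith) _)]
  apply ENNReal.ofReal_le_ofReal
  have := LOB_pow p h0 h1 F.card hF
  linarith

lemma LOB_ind (hIND : IND_stmt) (p : ℝ) (h0 : 0 ≤ p) (h1 : p ≤ 1) {k : ℕ} (B : Fin k → Finset Pt)
    (hB : ∀ i j, i ≠ j → Disjoint (B i) (B j)) (E : Fin k → Set Om) (hE : ∀ j, Dep (B j) (E j))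
    (s : Finset (Fin k)) :
    Dep (s.biUnion B) {ω | ∀ j ∈ s, ω ∈ E j} ∧
    Pm p {ω | ∀ j ∈ s, ω ∈ E j} = ∏ j ∈ s, Pm p (E j) := by
  induction s using Finset.induction_on with
  | empty =>
    refine ⟨?_, ?_⟩
    · intro ω ω' _
      simp
    · simp
  | insert a s ha ih =>
    have e : {ω : Om | ∀ j ∈ insert a s, ω ∈ E j} = E a ∩ {ω | ∀ j ∈ s, ω ∈ E j} := by
      ext ω
      simp only [Set.mem_setOf_eq, Finset.forall_mem_insert, Set.mem_inter_iff]
    rw [e]
    refine ⟨?_, ?_⟩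
    · rw [Finset.biUnion_insert]
      exact Dep.inter (hE a) ih.1
    · rw [hIND p (B a) (s.biUnion B) (E a) _ h0 h1 (hE a) ih.1 ?_, ih.2, Finset.prod_insert ha]
      rw [Finset.disjoint_biUnion_right]
      intro j hj
      apply hB
      intro h
      exact ha (h ▸ hj)

theorem LOB (hIND : IND_stmt) (hMUM : MUM_stmt) (hONE : ONE_stmt) : LOB_stmt := by
  have _ := hONE
  intro k τ H θ hk hkH hθ hθ1
  set h := H / k with hh
  have hk0 : 0 < k := hk
  have hh1 : 1 ≤ h := (Nat.one_le_div_iff hk0).mpr hkH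
  have hkh : k * h ≤ H := Nat.mul_div_le H k
  have hH2 : H ≤ 2 * k * h := by
    have h1 : H < (h + 1) * k := by
      rw [hh, mul_comm]
      exact Nat.lt_mul_div_succ H hk0
    nlinarith
  have hHpos : 0 < H := lt_of_lt_of_le hk0 hkH
  set p := den θ H with hp
  have hpd : p = θ / (H : ℝ) ^ 2 := rfl
  have hHR : (1 : ℝ) ≤ (H : ℝ) := by exact_mod_cast hHpos
  have hHR0 : (0 : ℝ) < (H : ℝ) := by linarith
  have hkR : (0 : ℝ) < (k : ℝ) := by exact_mod_cast hk0
  have hp0 : 0 < p := by rw [hpd]; positivity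
  have hp1 : p ≤ 1 := by
    rw [hpd, div_le_one (by positivity)]
    nlinarith
  set B : Fin k → Finset Pt := fun j => box ((j : ℕ) * h, (τ j : ℕ) * h)
    (((j : ℕ) + 1) * h, ((τ j : ℕ) + 1) * h) with hB
  have hcard : ∀ j, (B j).card = h * h := by
    intro j
    rw [hB]
    unfold box
    rw [Finset.card_product, Nat.card_Ico, Nat.card_Ico]
    simp only
    rw [add_mul, one_mul, Nat.add_sub_cancel_left, add_mul, one_mul, Nat.add_sub_cancel_left]
  have hlt : ∀ i j : ℕ, i < j → (i + 1) * h ≤ j * h := fun i j hij => Nat.mul_le_mul_right h hij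
  have hdisj : ∀ i j, i ≠ j → Disjoint (B i) (B j) := by
    intro i j hij
    rw [Finset.disjoint_left]
    intro c hc hc'
    rw [hB, mem_box] at hc hc'
    simp only at hc hc'
    rcases lt_or_gt_of_ne hij with h1 | h1
    · have h2 := hlt i j h1
      omega
    · have h2 := hlt j i h1
      omega
  set E : Fin k → Set Om := fun j => {ω | ∃ c ∈ B j, ω c = true} with hE
  have hdep : ∀ j, Dep (B j) (E j) := by
    intro j ω ω' Hc
    constructor
    · rintro ⟨c, hc, h1⟩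
      exact ⟨c, hc, by rw [← Hc c hc]; exact h1⟩
    · rintro ⟨c, hc, h1⟩
      exact ⟨c, hc, by rw [Hc c hc]; exact h1⟩
  have hind := (LOB_ind hIND p hp0.le hp1 B hdisj E hdep Finset.univ).2
  have hsub : {ω : Om | ∀ j ∈ (Finset.univ : Finset (Fin k)), ω ∈ E j} ⊆ {ω | HP τ ω 0 (H, H)} := by
    intro ω hω
    have hω' : ∀ j : Fin k, ∃ c ∈ B j, ω c = true := fun j => hω j (Finset.mem_univ j)
    choose c hc hct using hω'
    have hcx : ∀ j : Fin k, (j : ℕ) * h ≤ (c j).1 ∧ (c j).1 < ((j : ℕ) + 1) * h := by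
      intro j
      have := hc j
      rw [hB, mem_box] at this
      exact ⟨this.1.1, this.2.1⟩
    have hcy : ∀ v : Fin k, (v : ℕ) * h ≤ (c (τ.symm v)).2 ∧ (c (τ.symm v)).2 < ((v : ℕ) + 1) * h := by
      intro v
      have := hc (τ.symm v)
      rw [hB, mem_box] at this
      simp only [Equiv.apply_symm_apply] at this
      exact ⟨this.1.2, this.2.2⟩
    have hle : ∀ j : Fin k, ((j : ℕ) + 1) * h ≤ H := by
      intro j
      exact le_trans (Nat.mul_le_mul_right h j.2) hkh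
    refine ⟨⟨Nat.zero_le _, Nat.zero_le _⟩, fun j => (c j).1, fun v => (c (τ.symm v)).2, ?_, ?_, ?_⟩
    · intro i j hij
      have h1 := (hcx i).2
      have h2 := (hcx j).1
      have h3 := hlt i j hij
      show (c i).1 < (c j).1
      omega
    · intro i j hij
      have h1 := (hcy i).2
      have h2 := (hcy j).1
      have h3 := hlt i j hij
      show (c (τ.symm i)).2 < (c (τ.symm j)).2
      omega
    · intro j
      refine ⟨?_, ⟨Nat.zero_le _, ?_⟩, ⟨Nat.zero_le _, ?_⟩⟩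
      · simp only [Equiv.symm_apply_apply]
        exact hct j
      · exact lt_of_lt_of_le (hcx j).2 (hle j)
      · exact lt_of_lt_of_le (hcy j).2 (hle j)
  have hq : ∀ j, ENNReal.ofReal (θ / (8 * (k : ℝ) ^ 2)) ≤ Pm p (E j) := by
    intro j
    have hcj : (((B j).card : ℕ) : ℝ) = (h : ℝ) * h := by rw [hcard]; push_cast; ring
    have hhH : (h : ℝ) ≤ H := by
      have : h ≤ H := Nat.div_le_self H k
      exact_mod_cast this
    have hh0 : (0 : ℝ) ≤ (h : ℝ) := Nat.cast_nonneg h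
    have h1 : (((B j).card : ℕ) : ℝ) * p ≤ 1 := by
      rw [hcj, hpd]
      rw [← mul_div_assoc, div_le_one (by positivity)]
      nlinarith [mul_le_mul hhH hhH hh0 hHR0.le]
    refine le_trans (ENNReal.ofReal_le_ofReal ?_) (LOB_some hMUM p (B j) hp0.le hp1 h1)
    rw [hcj, hpd]
    have h2 : (H : ℝ) ≤ 2 * k * h := by exact_mod_cast hH2
    have h3 : (H : ℝ) ^ 2 ≤ (2 * k * h) ^ 2 := pow_le_pow_left₀ hHR0.le h2 2
    rw [← mul_div_assoc, div_div, div_le_div_iff₀ (by positivity) (by positivity)]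
    nlinarith
  calc ENNReal.ofReal ((θ / (8 * (k : ℝ) ^ 2)) ^ k)
      = ∏ _j : Fin k, ENNReal.ofReal (θ / (8 * (k : ℝ) ^ 2)) := by
        rw [Finset.prod_const, Finset.card_univ, Fintype.card_fin, ENNReal.ofReal_pow (by positivity)]
    _ ≤ ∏ j : Fin k, Pm p (E j) := Finset.prod_le_prod' fun j _ => hq j
    _ = Pm p {ω : Om | ∀ j ∈ (Finset.univ : Finset (Fin k)), ω ∈ E j} := hind.symm
    _ ≤ _ := measure_mono hsub

end Pool.Agent.MSW
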