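import Pool.Agent.helper47.MSW.SpecA
import Pool.Agent.helper47.MSW.SpecC
import Pool.Agent.helper48.CG.Main

set_option autoImplicit false

namespace Pool.Agent.MSW

open Equiv Finset Function MeasureTheory Pool.Agent.helper48.PP
open Pool.Agent.DSW (Pr Has GP wt)
open scoped ENNReal Classical

lemma STR_refl {n : ℕ} (w : Perm (Fin n)) : Contains w w :=
  ⟨id, fun _ _ h => h, fun _ _ => Iff.rfl⟩

lemma STR_ex (F : Σ k : ℕ, Perm (Fin k)) (hF : ∃ a, F.1 = a + 1) :
    ∃ n, avCount n (dsum (dsum F.2 (1 : Perm (Fin 2))) F.2) <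
      avCount n (dsum (dsum F.2 (Equiv.swap (0 : Fin 2) 1)) F.2) := by
  obtain ⟨k, x⟩ := F
  obtain ⟨a, ha⟩ := hF
  simp only at ha
  subst ha
  obtain ⟨ρ, _, N, hN⟩ := Pool.Agent.helper48.CG.cor x x
  exact ⟨N, (hN N le_rfl).2⟩

theorem STR (hASC : ASC_stmt) : STR_stmt := by
  intro s
  have hT : ∀ n, avCount n (flat (Blk s true)).2
      = avCount n (dsum (dsum (flat (Iz s)).2 (1 : Perm (Fin 2))) (flat (Iz s)).2) :=
    fun n => hASC.2 (Iz s) (Iz s) (sw true) n
  have hF : ∀ n, avCount n (flat (Blk s false)).2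
      = avCount n (dsum (dsum (flat (Iz s)).2 (Equiv.swap (0 : Fin 2) 1)) (flat (Iz s)).2) :=
    fun n => hASC.2 (Iz s) (Iz s) (sw false) n
  constructor
  · intro n
    rw [hT, hF]
    exact swap_dominance_gen (flat (Iz s)).2 (flat (Iz s)).2 _ _ (STR_refl _) (STR_refl _) n
  · have hpos : ∃ a, (flat (Iz s)).1 = a + 1 := by
      refine ⟨(zr s).1 + (flat (List.replicate s (zr s))).1, ?_⟩
      show (zr s).1 + 1 + (flat (List.replicate s (zr s))).1 = _
      omega
    obtain ⟨n, hn⟩ := STR_ex (flat (Iz s)) hpos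
    refine ⟨n, ?_⟩
    rw [hT, hF]
    exact hn

end Pool.Agent.MSW
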