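import Pool.Agent.helper47.MSW.SpecA
import Pool.Agent.helper47.MSW.SpecD

set_option autoImplicit false

namespace Pool.Agent.MSW

open Equiv Finset Function MeasureTheory Pool.Agent.helper48.PP
open Pool.Agent.DSW (Pr Has GP wt)
open scoped ENNReal Classical

theorem TOP (hFIN : FIN_stmt) (hFLT : FLT_stmt) : TOP_stmt := by
  intro T
  obtain ⟨A, B, n, hAB, hn, hav⟩ := hFIN T
  have hk : (flat A).1 = (flat B).1 := by rw [hFLT.2, hFLT.2, hAB]
  have hmono : ∀ d i : ℕ, i + d + 1 < T → n i < n (i + d + 1) := by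
    intro d
    induction d with
    | zero => intro i hi; exact hn i hi
    | succ d ih =>
      intro i hi
      exact lt_trans (ih i (by omega)) (hn (i + d + 1) hi)
  have hsm : StrictMono (fun j : Fin T => n j) := by
    intro i j hij
    have h1 : (i : ℕ) < j := hij
    obtain ⟨d, hd⟩ : ∃ d, (j : ℕ) = i + d + 1 := ⟨j - i - 1, by omega⟩
    have h2 := hmono d i (by rw [← hd]; exact j.2)
    show n i < n j
    rw [hd]; exact h2
  generalize flat A = F at hk hav
  generalize flat B = G at hk hav
  obtain ⟨k, σ⟩ := F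
  obtain ⟨l, τ⟩ := G
  simp only at hk
  subst hk
  exact ⟨k, σ, τ, fun j : Fin T => n j, hsm, fun j => hav j j.2⟩

end Pool.Agent.MSW
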